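import Pool.Agent.Y661.UE.Fin

/-!
# Uniform disorder, `d ≥ 4`: the localization edge to all orders in `c`

For the Anderson model `Δ_ω = -Δ + ω` on `ℤ^d`, `d ≥ 4`, with iid `ω_j` uniform on `[-c, c]` and small
`c` there are numbers `a 0 = 0`, `a 2 = -G_d / 3`, ... and an energy
`E_*(c) = ∑_{n ≤ N} a (2n) c^{2n} + O(c^{2N+2})` (for every `N`) such that, up to errors
`κ ≥ exp(-k c^{-d/2})` (`exp(-k/c)` if `d = 4`), the spectrum outside `[E_*, 4 d - E_*]` is localized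
(purely singular), while on tori the ground state is extended with energy near `E_*`, and states with
energy `≤ E_* + κ` or `≥ 4 d - E_* - κ` put mass at most `K κ^{d/2}` on each site outside an
exponentially sparse set. `a n` is the limit, as `L → ∞`, of the expectation of the coefficient of
`c^n` in the Taylor expansion at `c = 0` of the lowest eigenvalue on the torus of side `L`.
-/

set_option autoImplicit false

open scoped BigOperators ENNReal Topology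
open MeasureTheory Filter

namespace Pool.Agent.Results.MP_562b47_mp.EdgeAllOrders

open Pool.Agent.Results.MP_562b47_mp.LocalizationToEdge (unif H SqSummable Localized T HT sc)

/-- the Green function of the lattice Laplacian at the origin,
`∫_{[0,1]^d} (∑ (2 - 2 cos 2πx_i))⁻¹ dx` -/
noncomputable def G (d : ℕ) : ℝ :=
  ∫ x in Set.pi Set.univ (fun _ : Fin d => Set.Icc (0 : ℝ) 1),
    (∑ i, (2 - 2 * Real.cos (2 * Real.pi * x i)))⁻¹

/-- `e n` are the Taylor coefficients at `c = 0` of the lowest eigenvalue of `-Δ + c V` on the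
torus, that is, the eigenvalue with a positive eigenvector -/
def IsGroundTaylor {d L : ℕ} [NeZero L] (V : T d L → ℝ) (e : ℕ → ℝ) : Prop :=
  ∀ N : ℕ, ∃ C δ : ℝ, 0 < δ ∧ ∀ c : ℝ, 0 < c → c ≤ δ → ∀ (E : ℝ) (ψ : T d L → ℝ),
    (∀ x, 0 < ψ x) → (∀ x, HT (fun y => c * V y) ψ x = E * ψ x) →
      |E - ∑ n ∈ Finset.range (N + 1), e n * c ^ n| ≤ C * c ^ (N + 1)

/-- `Δ_ω` on the torus has an eigenfunction `ψ` with `1 ≤ ψ ≤ 1 + η`, its eigenvalue `E₀` differs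
from `Es` by at most `κ`, and the quadratic form of `Δ_ω - E₀` is at least `1/(2 d L²)` on the
orthogonal complement of `ψ` -/
def ExtendedGroundState {d L : ℕ} [NeZero L] (η κ Es : ℝ) (ω : T d L → ℝ) : Prop :=
  ∃ (E₀ : ℝ) (ψ : T d L → ℝ), |E₀ - Es| ≤ κ ∧ (∀ x, 1 ≤ ψ x ∧ ψ x ≤ 1 + η) ∧
    (∀ x, HT ω ψ x = E₀ * ψ x) ∧
    ∀ f : T d L → ℝ, ∑ x, ψ x * f x = 0 →
      1 / (2 * (d : ℝ) * (L : ℝ) ^ 2) * ∑ x, f x ^ 2 ≤ ∑ x, f x * (HT ω f x - E₀ * f x)

/-- `m` is the spectral measure of `δ_x` for the bounded self-adjoint operator `A`: the finite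
measure whose moments are `⟨δ_x, A^n δ_x⟩` -/
def IsSpectralMeasureAt {d : ℕ} (A : ((Fin d → ℤ) → ℂ) → (Fin d → ℤ) → ℂ) (x : Fin d → ℤ)
    (m : Measure ℝ) : Prop :=
  IsFiniteMeasure m ∧ ∀ n : ℕ, Integrable (fun E : ℝ => E ^ n) m ∧
    ((∫ E, E ^ n ∂m : ℝ) : ℂ) = A^[n] (Pi.single x 1) x

/-- **Theorem.** `unif c` is the uniform law on `[-c, c]`, `H ω` is `Δ_ω` on `ℤ^d`, `HT ω` on the
torus `T d L`, and `sc d c` is `c^{-d/2}` (`1/c` if `d = 4`). -/
theorem result (d : ℕ) (hd : 4 ≤ d) :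
    ∃ (e : (L : ℕ) → (T d (L + 1) → ℝ) → ℕ → ℝ) (a : ℕ → ℝ),
    -- the coefficients are the limits of the mean Taylor coefficients on tori
    (∀ L V, IsGroundTaylor V (e L V)) ∧
    (∀ n, (∀ L, Integrable (fun V => e L V n) (Measure.pi fun _ : T d (L + 1) => unif 1)) ∧
      Tendsto (fun L : ℕ => ∫ V, e L V n ∂(Measure.pi fun _ : T d (L + 1) => unif 1)) atTop
        (𝓝 (a n))) ∧
    a 0 = 0 ∧ a 2 = -(G d / 3) ∧ (∀ n, a (2 * n + 1) = 0) ∧
    ∀ η : ℝ, 0 < η → η ≤ 1 → ∃ k K : ℝ, 0 < k ∧ 0 < K ∧ ∃ Es : ℝ → ℝ,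
      -- the asymptotic expansion of the effective edge
      (∀ N : ℕ, ∃ C : ℝ, ∀ c : ℝ, 0 < c → c ≤ k →
        |Es c - ∑ n ∈ Finset.range (N + 1), a (2 * n) * c ^ (2 * n)| ≤ C * c ^ (2 * N + 2)) ∧
      ∀ c : ℝ, 0 < c → c ≤ k →
      -- (1) exponential localization outside `[Es - κ, 4 d - Es + κ]`
      (∀ κ : ℝ, Real.exp (-(k * sc d c)) ≤ κ → κ ≤ 1 →
        ∀ᵐ ω ∂(Measure.infinitePi fun _ : Fin d → ℤ => unif c),
          Localized (H ω) {E | E ≤ Es c - κ ∨ 4 * d - Es c + κ ≤ E}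
            (k * Real.sqrt κ / Real.log (2 / (κ * c)))) ∧
      -- (2) on tori the ground state is extended, its energy is `Es + O(1/L²)`
      (∀ (L : ℕ) [NeZero L], (L : ℝ) ≤ Real.exp (k * sc d c) →
        ∃ A : Set (T d L → ℝ), MeasurableSet A ∧
          1 - Real.exp (-(k * sc d c)) ≤ (Measure.pi fun _ : T d L => unif c).real A ∧
          ∀ ω ∈ A, ExtendedGroundState η (K / (L : ℝ) ^ 2) (Es c) ω) ∧
      -- (3) states near the edges are spread out, away from a sparse set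
      ∃ Bad : ((Fin d → ℤ) → ℝ) → Set (Fin d → ℤ),
        (∀ x, MeasurableSet {ω | x ∈ Bad ω}) ∧
        (∀ ω a x, x ∈ Bad (fun y => ω (y + a)) ↔ x + a ∈ Bad ω) ∧
        (∀ x, (Measure.infinitePi fun _ : Fin d → ℤ => unif c).real {ω | x ∈ Bad ω} ≤
          Real.exp (-(k * sc d c))) ∧
        ∀ ω x, x ∉ Bad ω → ∀ κ : ℝ, Real.exp (-(k * sc d c)) ≤ κ → κ ≤ 1 →
          (∀ (E : ℝ) (u : (Fin d → ℤ) → ℂ), (E ≤ Es c + κ ∨ 4 * d - Es c - κ ≤ E) →
            SqSummable u → (∀ y, H ω u y = (E : ℂ) * u y) →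
              ‖u x‖ ^ 2 ≤ K * κ ^ ((d : ℝ) / 2) * ∑' y, ‖u y‖ ^ 2) ∧
          ∀ m : Measure ℝ, IsSpectralMeasureAt (H ω) x m →
            m.real (Set.Iic (Es c + κ)) ≤ K * κ ^ ((d : ℝ) / 2) :=
  Pool.Agent.Y661.UE.main d hd

end Pool.Agent.Results.MP_562b47_mp.EdgeAllOrders
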