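import Pool.Agent.Y663.Th3

/-!
# Dimension three: localization up to `K c⁴ log² (1/c)` from the effective band edge, uniform disorder

For the Anderson model `Δ_ω = -Δ + ω` on `ℤ³` with iid `ω_j` uniform on `[-c, c]` and small `c` there is
a deterministic energy `E_*` such that (1) on tori of side `L ≤ k / (c² log (1/c))` the ground state is
flat, with energy `E_* + O(1/L²)`, and (2) there is exponential localization at all energies at distance
at least `K c⁴ log² (1/c)` from the effective band `[E_*, 12 - E_*]`.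
-/

set_option autoImplicit false

open scoped BigOperators ENNReal
open MeasureTheory

namespace Pool.Agent.Results.MP_562b47_mp.EdgeThree

/-- the uniform law on `[-c, c]` -/
noncomputable def unif (c : ℝ) : Measure ℝ :=
  ENNReal.ofReal (1 / (2 * c)) • volume.restrict (Set.Icc (-c) c)

/-! ### The operator on `ℤ^d` -/

/-- `(Δ_ω u)(j) = -∑_{|n|=1} (u(j+n) - u(j)) + ω_j u(j)` -/
noncomputable def H {d : ℕ} (ω : (Fin d → ℤ) → ℝ) (u : (Fin d → ℤ) → ℂ) (j : Fin d → ℤ) : ℂ :=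
  -∑ i : Fin d, ((u (j + Pi.single i 1) - u j) + (u (j - Pi.single i 1) - u j)) + (ω j : ℂ) * u j

/-- square summable functions -/
def SqSummable {d : ℕ} (u : (Fin d → ℤ) → ℂ) : Prop := Summable fun x => ‖u x‖ ^ 2

/-- `μ` is the spectral measure of the vector `g`: a finite measure whose Borel transform
`∫ (E - z)⁻¹ dμ(E)` is `⟨g, (H - z)⁻¹ g⟩` for all non-real `z` -/
def IsSpectralMeasure {d : ℕ} (A : ((Fin d → ℤ) → ℂ) → (Fin d → ℤ) → ℂ) (g : (Fin d → ℤ) → ℂ)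
    (μ : Measure ℝ) : Prop :=
  IsFiniteMeasure μ ∧ ∀ z : ℂ, z.im ≠ 0 → ∃ u : (Fin d → ℤ) → ℂ, SqSummable u ∧
    (∀ x, A u x - z * u x = g x) ∧ ∫ E : ℝ, ((E : ℂ) - z)⁻¹ ∂μ = ∑' x, (starRingEnd ℂ) (g x) * u x

/-- exponential localization of the operator `A` at the energies in `S`, with rate `m`:
every polynomially bounded solution of `A ψ = E ψ`, `E ∈ S`, decays exponentially with rate `m`, and
the spectral measures are pure point in `S` (carried there by a countable set) -/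
def Localized {d : ℕ} (A : ((Fin d → ℤ) → ℂ) → (Fin d → ℤ) → ℂ) (S : Set ℝ) (m : ℝ) : Prop :=
  (∀ E ∈ S, ∀ ψ : (Fin d → ℤ) → ℂ, (∃ (C : ℝ) (n : ℕ), ∀ x, ‖ψ x‖ ≤ C * (1 + ‖x‖) ^ n) →
    (∀ x, A ψ x = (E : ℂ) * ψ x) → ∃ C : ℝ, ∀ x, ‖ψ x‖ ≤ C * Real.exp (-(m * ‖x‖))) ∧
  ∃ N : Set ℝ, N.Countable ∧ ∀ (g : (Fin d → ℤ) → ℂ) (μ : Measure ℝ), SqSummable g →
    IsSpectralMeasure A g μ → μ (S \ N) = 0

/-! ### The operator on a torus -/

/-- the discrete torus `(ℤ/L)^d` -/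
abbrev T (d L : ℕ) : Type := Fin d → ZMod L

/-- `Δ_ω` on the torus -/
noncomputable def HT {d L : ℕ} (ω f : T d L → ℝ) (x : T d L) : ℝ :=
  -∑ i : Fin d, ((f (x + Pi.single i 1) - f x) + (f (x - Pi.single i 1) - f x)) + ω x * f x

/-- `Δ_ω` on the torus has an eigenfunction `ψ` with `1 ≤ ψ ≤ 1 + η` (its ground state), and the
eigenvalue differs from `Es` by at most `K / L²` -/
def FlatAt {d L : ℕ} (η K Es : ℝ) (ω : T d L → ℝ) : Prop :=
  ∃ (E : ℝ) (ψ : T d L → ℝ), |E - Es| ≤ K / (L : ℝ) ^ 2 ∧ (∀ x, 1 ≤ ψ x ∧ ψ x ≤ 1 + η) ∧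
    ∀ x, HT ω ψ x = E * ψ x

/-- **Theorem.** -/
theorem result (η : ℝ) (hη : 0 < η) (hη' : η ≤ 1) :
    ∃ k K : ℝ, 0 < k ∧ 0 < K ∧ ∀ c : ℝ, 0 < c → c ≤ k → ∃ Es : ℝ, |Es| ≤ c ∧
      -- (1) on tori of side `L ≤ k / (c² log (1/c))` the ground state is flat, energy `Es + O(1/L²)`
      (∀ (L : ℕ) [NeZero L], (L : ℝ) * (c ^ 2 * Real.log (1 / c)) ≤ k →
        ∃ G : Set (T 3 L → ℝ), MeasurableSet G ∧
          1 - c ≤ (Measure.pi fun _ : T 3 L => unif c).real G ∧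
          ∀ ω ∈ G, FlatAt η K Es ω) ∧
      -- (2) localization at all energies at distance at least `K c⁴ log² (1/c)` from `[Es, 12 - Es]`
      ∀ κ : ℝ, K * c ^ 4 * Real.log (1 / c) ^ 2 ≤ κ → κ ≤ 1 →
        ∀ᵐ ω ∂(Measure.infinitePi fun _ : Fin 3 → ℤ => unif c),
          Localized (H ω) {E | E ≤ Es - κ ∨ 12 - Es + κ ≤ E}
            (k * Real.sqrt κ / Real.log (2 / (κ * c))) :=
  Pool.Agent.Y663.Th3.result η hη hη'

end Pool.Agent.Results.MP_562b47_mp.EdgeThree
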