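import Pool.Agent.Y663.D2.Fin2

/-!
# Dimension two: localization up to the effective band edge, uniform disorder

For the Anderson model `Δ_ω = -Δ + ω` on `ℤ²` with iid `ω_j` uniform on `[-c, c]`, small `c`, put
`e(c) = (c² / 6π) log (1/c)`; `-e(c)` is the leading order of the second order self-energy at the bottom
of the free band `[0, 8]`. There is exponential localization at all energies outside
`(-(1 + η) e(c), 8 + (1 + η) e(c))`, uniformly for `η ≥ (log (1/c))^(-1/5)`.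
-/

set_option autoImplicit false

open scoped BigOperators ENNReal
open MeasureTheory

namespace Pool.Agent.Results.MP_562b47_mp.EdgeTwo

/-- the uniform law on `[-c, c]` -/
noncomputable def unif (c : ℝ) : Measure ℝ :=
  ENNReal.ofReal (1 / (2 * c)) • volume.restrict (Set.Icc (-c) c)

/-- `(Δ_ω u)(j) = -∑_{|n|=1} (u(j+n) - u(j)) + ω_j u(j)` -/
noncomputable def H {d : ℕ} (ω : (Fin d → ℤ) → ℝ) (u : (Fin d → ℤ) → ℂ) (j : Fin d → ℤ) : ℂ :=
  -∑ i : Fin d, ((u (j + Pi.single i 1) - u j) + (u (j - Pi.single i 1) - u j)) + (ω j : ℂ) * u j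

/-- square summable functions -/
def SqSummable {d : ℕ} (u : (Fin d → ℤ) → ℂ) : Prop := Summable fun x => ‖u x‖ ^ 2

/-- `μ` is the spectral measure of the vector `g`: a finite measure whose Borel transform
`∫ (E - z)⁻¹ dμ(E)` is `⟨g, (H - z)⁻¹ g⟩` for all non-real `z` -/
def IsSpectralMeasure {d : ℕ} (A : ((Fin d → ℤ) → ℂ) → (Fin d → ℤ) → ℂ) (g : (Fin d → ℤ) → ℂ)
    (μ : Measure ℝ) : Prop :=
  IsFiniteMeasure μ ∧ ∀ z : ℂ, z.im ≠ 0 → ∃ u : (Fin d → ℤ) → ℂ, SqSummable u ∧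
    (∀ x, A u x - z * u x = g x) ∧ ∫ E : ℝ, ((E : ℂ) - z)⁻¹ ∂μ = ∑' x, (starRingEnd ℂ) (g x) * u x

/-- exponential localization of the operator `A` at the energies in `S`, with rate `m`:
every polynomially bounded solution of `A ψ = E ψ`, `E ∈ S`, decays exponentially with rate `m`, and
the spectral measures are pure point in `S` (carried there by a countable set) -/
def Localized {d : ℕ} (A : ((Fin d → ℤ) → ℂ) → (Fin d → ℤ) → ℂ) (S : Set ℝ) (m : ℝ) : Prop :=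
  (∀ E ∈ S, ∀ ψ : (Fin d → ℤ) → ℂ, (∃ (C : ℝ) (n : ℕ), ∀ x, ‖ψ x‖ ≤ C * (1 + ‖x‖) ^ n) →
    (∀ x, A ψ x = (E : ℂ) * ψ x) → ∃ C : ℝ, ∀ x, ‖ψ x‖ ≤ C * Real.exp (-(m * ‖x‖))) ∧
  ∃ N : Set ℝ, N.Countable ∧ ∀ (g : (Fin d → ℤ) → ℂ) (μ : Measure ℝ), SqSummable g →
    IsSpectralMeasure A g μ → μ (S \ N) = 0

/-- **Theorem.** For `0 < c ≤ k` and `η ∈ (0, 1]` with `η⁵ log (1/c) ≥ 1` (so: for every fixed `η` and all
small `c`) almost surely `Δ_ω` on `ℤ²` is exponentially localized, with rate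
`k η⁵ c / sqrt (log (1/c))`, at all energies outside the `(1 + η)`-fold enlarged effective band. -/
theorem result : ∃ k : ℝ, 0 < k ∧ ∀ c : ℝ, 0 < c → c ≤ k → ∀ η : ℝ, 0 < η → η ≤ 1 →
    1 ≤ η ^ 5 * Real.log (1 / c) →
    ∀ᵐ ω ∂(Measure.infinitePi fun _ : Fin 2 → ℤ => unif c),
      Localized (H ω) {E | E ≤ -((1 + η) * (c ^ 2 / (6 * Real.pi)) * Real.log (1 / c)) ∨
        8 + (1 + η) * (c ^ 2 / (6 * Real.pi)) * Real.log (1 / c) ≤ E}
        (k * η ^ 5 * c / Real.sqrt (Real.log (1 / c))) :=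
  Pool.Agent.Y663.D2.Fin2.main

end Pool.Agent.Results.MP_562b47_mp.EdgeTwo
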